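import Pool.Agent.H87.PC.Final

/-!
# MP_45223c_al: the zero locus of the evaluation ideal can be larger than the non-Frobenius-split locus

For every prime `p` we construct a Noetherian domain `R` of characteristic `p` (one-dimensional,
with finitely many primes) such that `R_perf` is a solid `R`-algebra and such that some prime
`𝔭 ⊇ I` has `R_𝔭` Frobenius split. This disproves `Z = N`.

Construction. Let `K` be the fraction field of the polynomial ring `P` over `𝔽_p` in the variables
`s, t, q, r_ν, u_ν, w_a`, where `ν` runs over the finite sequences of natural numbers and `a` over the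
infinite ones. Put `y_ν = u_ν + (q r_ν)^p` and `E(a,j) = ∑_{i<j} (a_i + 1)`, and embed `P` in a power
series ring in the variable `t` by `w_a ↦ ∑_j t^(p E(a,j)) y_{a|j}`; this gives a discrete valuation
ring `V` of `K`. Let `σ` be the involution `q ↦ -q` (`q ↦ q + 1` if `p = 2`) fixing the other
variables, let `A` be the ring of rational functions regular at `s = 0` whose value at `s = 0` is
fixed by `σ`, and let `R = A ∩ V`. Then `A = R_𝔭` is Frobenius split by a splitting that is monomial in
`s, t, r, u, w`; `R_perf` is solid because of the `t`-adically continuous monomial splitting in the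
coordinates `s, t, q, r, y`; but no linear map `R^{1/p} → R` sends `1` outside `𝔭`, as
`ψ(y_ν^{1/p}) = ψ(u_ν^{1/p}) + q r_ν ψ(1)` would involve `r_ν`, so that a diagonal choice of the
sequence `a` would make `ψ(w_a^{1/p})` involve infinitely many of the variables `r_ν`.
-/

namespace Pool.Agent.Results.MP_45223c_al.LocusCounterexample

/-- `κ` is an `A`-linear map `F_* A → A`. -/
def IsFrobMap (p : ℕ) (A : Type*) [CommRing A] (κ : A →+ A) : Prop :=
  ∀ r x : A, κ (r ^ p * x) = r * κ x

/-- `A` is Frobenius split: the Frobenius map `A → F_* A` has an `A`-linear left inverse. -/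
def FrobeniusSplit (p : ℕ) (A : Type*) [CommRing A] : Prop :=
  ∃ κ : A →+ A, IsFrobMap p A κ ∧ ∀ a : A, κ (a ^ p) = a

/-- `φ` is an `R`-linear map `R_perf → R`. -/
def IsPerfMap (p : ℕ) [Fact p.Prime] (R : Type*) [CommRing R] [CharP R p]
    (φ : PerfectClosure R p →+ R) : Prop :=
  ∀ (r : R) (x : PerfectClosure R p), φ (PerfectClosure.of R p r * x) = r * φ x

/-- `R_perf` is a solid `R`-algebra: there is a nonzero `R`-linear map `R_perf → R`. -/
def PerfSolid (p : ℕ) [Fact p.Prime] (R : Type*) [CommRing R] [CharP R p] : Prop :=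
  ∃ φ : PerfectClosure R p →+ R, IsPerfMap p R φ ∧ φ ≠ 0

/-- The evaluation ideal `{φ(1) : φ ∈ Hom_R(R_perf, R)}`. -/
noncomputable def evalIdeal (p : ℕ) [Fact p.Prime] (R : Type*) [CommRing R] [CharP R p] :
    Ideal R where
  carrier := {a | ∃ φ : PerfectClosure R p →+ R, IsPerfMap p R φ ∧ φ 1 = a}
  add_mem' := by
    rintro a b ⟨φ, hφ, rfl⟩ ⟨ψ, hψ, rfl⟩
    exact ⟨φ + ψ, fun r x => by simp [hφ r x, hψ r x, mul_add], rfl⟩
  zero_mem' := ⟨0, fun r x => by simp, rfl⟩
  smul_mem' := by
    rintro c a ⟨φ, hφ, rfl⟩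
    refine ⟨(AddMonoidHom.mulLeft c).comp φ, fun r x => ?_, rfl⟩
    simp only [AddMonoidHom.comp_apply, AddMonoidHom.coe_mulLeft, hφ r x]
    ring

open Pool.Agent.H87.PC in
theorem result (p : ℕ) [Fact p.Prime] :
    ∃ (R : Type) (_ : CommRing R) (_ : IsDomain R) (_ : CharP R p),
      IsNoetherianRing R ∧
      (∀ I : Ideal R, I.IsPrime → I ≠ ⊥ → I.IsMaximal) ∧ {I : Ideal R | I.IsPrime}.Finite ∧
      PerfSolid p R ∧
      ∃ P : PrimeSpectrum R, P ∈ PrimeSpectrum.zeroLocus (evalIdeal p R : Set R) ∧
        FrobeniusSplit p (Localization.AtPrime P.asIdeal) := by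
  refine ⟨RR p (FractionRing (P p)), inferInstance, inferInstance, inferInstance,
    isNoetherianRing_RR p _, isMaximal_of_prime p _, finite_primes p _,
    ⟨solidMap p _, solidMap_linear p _, solidMap_ne_zero p _⟩, ⟨pp p _, pp_prime p _⟩, ?_, ?_⟩
  · rw [PrimeSpectrum.mem_zeroLocus]
    rintro a ⟨φ, hφ, rfl⟩
    exact phi_one_mem p _ φ hφ
  · exact exists_split p (FractionRing (P p))

end Pool.Agent.Results.MP_45223c_al.LocusCounterexample
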